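import Mathlib
import Pool.Agent.Lib.MP_b87ea9_an.Defs
import Pool.Agent.Lib.MP_b87ea9_an.Arc
import Pool.Agent.Lib.MP_b87ea9_an.NoCau
import Pool.Agent.Lib.MP_b87ea9_an.KZ

set_option autoImplicit false

/-! # The least smoothness of the curvature that guarantees a convex caustic is `C²`

`P(m)` holds if and only if `m ≥ 2`: every table whose boundary has positive curvature of class `C²`
has a convex caustic, and there is a table with positive curvature of class `C¹` and without convex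
caustic. -/

namespace Pool.Agent.MP_b87ea9_an

theorem hasCurvature_mono {T : Set ℂ} {m n : ℕ} (hmn : m ≤ n) (h : HasCurvature n T) :
    HasCurvature m T := by
  obtain ⟨l, Γ, h1, h2, h3, h4, h5, h6, h7, h8⟩ := h
  exact ⟨l, Γ, h1, h2, h3, h4, h5, h6, h7.of_le (by exact_mod_cast hmn), h8⟩

/-- there is a table with `C¹` positive curvature and without convex caustic -/
theorem exists_table_without : ∃ T : Set ℂ, IsTable T ∧ (∀ m : ℕ, m ≤ 1 → HasCurvature m T) ∧
    ∀ C : Set ℂ, ¬ IsConvexCaustic T C := by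
  obtain ⟨β, hβ⟩ := exists_bump
  obtain ⟨n₀, hG⟩ := exists_good hβ
  have hθ : (0 : ℝ) < (1 / 2) ^ n₀ := by positivity
  have hθ1 : (1 / 2 : ℝ) ^ n₀ ≤ 1 / 10 := by
    have h1 := hG.c1 n₀ le_rfl
    have h2 := Ln_le (n := n₀) (by have := hG.two; omega)
    linarith
  have h := rho_isRho hβ hG hθ hθ1
  refine ⟨tab (rho β n₀ ((1 / 2) ^ n₀)), tab_isTable h,
    fun m hm => tab_hasCurvature h (rho_smooth hβ hG hθ hθ1) hm, fun C hC => ?_⟩
  obtain ⟨g, hg, hθg⟩ := cau_of_caustic h hC
  exact no_cau hβ hG hg (hθg _ hθ (by linarith [Real.pi_gt_three])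
    (rho_balance hβ hG hθ hθ1))

end Pool.Agent.MP_b87ea9_an

open Pool.Agent.MP_b87ea9_an in
/-- `P(m)` holds if and only if `m ≥ 2`; the least `m` with `P(m)` is `2`. -/
theorem Pool.Agent.Results.MP_b87ea9_an.LeastSmoothness.result :
    IsLeast {m : ℕ | EveryTableHasCaustic m} 2 ∧
      ∀ m : ℕ, EveryTableHasCaustic m ↔ 2 ≤ m := by
  have h1 : ∀ m : ℕ, EveryTableHasCaustic m → 2 ≤ m := by
    intro m hm
    by_contra hcon
    push Not at hcon
    obtain ⟨T, hT, hc, hno⟩ := exists_table_without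
    obtain ⟨C, hC⟩ := hm T hT (hc m (by omega))
    exact hno C hC
  have h2 : EveryTableHasCaustic 2 := Kam.everyTable_two
  exact ⟨⟨h2, fun m hm => h1 m hm⟩, fun m => ⟨h1 m, fun hm T hT hc =>
    h2 T hT (hasCurvature_mono hm hc)⟩⟩
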